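import Pool.Agent.N13.SI.Ana
import Pool.Agent.N902.EW.Ei

/-!
# The damped sine integrals as values of words
-/

set_option autoImplicit false

open MeasureTheory Set Filter Topology

namespace Pool.Agent.N13.SI

open Pool.Agent.N902.EW

lemma ii_slope {E : Type*} [NormedAddCommGroup E] [NormedSpace ℝ E] (f : ℝ → E) (hf : Differentiable ℝ f) (a b : ℝ) :
    IntervalIntegrable (fun s => s⁻¹ • (f s - f 0)) volume a b := by
  have h1 : Continuous (dslope f 0) := by
    rw [← continuousOn_univ, continuousOn_dslope (univ_mem)]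
    exact ⟨hf.continuous.continuousOn, hf 0⟩
  refine (h1.intervalIntegrable a b).congr_ae ?_
  refine ae_restrict_of_ae ?_
  have : ∀ᵐ t : ℝ, t ≠ 0 := by simp [ae_iff, measure_singleton]
  filter_upwards [this] with t ht
  rw [dslope_of_ne _ ht, slope_def_module, sub_zero]

lemma ii_g (θ a b : ℝ) : IntervalIntegrable (g θ) volume a b := by
  have h := ii_slope (fun t => Real.exp (-(t * Real.cos θ)) * Real.sin (t * Real.sin θ)) (by fun_prop) a b
  refine h.congr_ae (Eventually.of_forall fun t => ?_)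
  simp only [zero_mul, Real.sin_zero, mul_zero, sub_zero, smul_eq_mul]
  unfold g
  rw [div_eq_mul_inv, mul_comm]

lemma ii_exp (a : ℂ) : IntervalIntegrable (fun s : ℝ => (Complex.exp (a * s) - 1) * 1 / (s : ℂ)) volume 0 1 := by
  have h := ii_slope (fun s : ℝ => Complex.exp (a * s)) (by
    intro s
    have h1 : HasDerivAt (fun s : ℝ => a * (s : ℂ)) (a * 1) s := (Complex.ofRealCLM.hasDerivAt).const_mul a
    exact (h1.cexp).differentiableAt) 0 1
  refine h.congr_ae (Eventually.of_forall fun t => ?_)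
  simp only [Complex.ofReal_zero, mul_zero, Complex.exp_zero, mul_one, Complex.real_smul, Complex.ofReal_inv]
  rw [div_eq_mul_inv, mul_comm]

lemma II_single (a : ℂ) (ha : a ≠ 0) : II [a] 1 = ∫ s in (0 : ℝ)..1, (Complex.exp (a * s) - 1) * 1 / (s : ℂ) := by
  rw [II]
  simp only [if_neg ha, II]

/-- the limit defining the damped sine integral -/
noncomputable def S (θ x : ℝ) : ℝ := limUnder atTop (fun R : ℝ => ∫ t in x..R, g θ t)

lemma tendsto_S' (θ x : ℝ) (h0 : 0 ≤ θ) (h1 : θ ≤ Real.pi / 2) :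
    Tendsto (fun R : ℝ => ∫ t in x..R, g θ t) atTop (𝓝 (θ - ∫ t in (0 : ℝ)..x, g θ t)) := by
  refine ((tendsto_g θ h0 h1).sub_const (∫ t in (0 : ℝ)..x, g θ t)).congr fun R => ?_
  exact intervalIntegral.integral_interval_sub_left (ii_g θ 0 R) (ii_g θ 0 x)

lemma S_eq (θ x : ℝ) (h0 : 0 ≤ θ) (h1 : θ ≤ Real.pi / 2) : S θ x = θ - ∫ t in (0 : ℝ)..x, g θ t :=
  (tendsto_S' θ x h0 h1).limUnder_eq

lemma tendsto_S (θ x : ℝ) (h0 : 0 ≤ θ) (h1 : θ ≤ Real.pi / 2) :
    Tendsto (fun R : ℝ => ∫ t in x..R, g θ t) atTop (𝓝 (S θ x)) := by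
  rw [S_eq θ x h0 h1]
  exact tendsto_S' θ x h0 h1

lemma S_zero (θ : ℝ) (h0 : 0 ≤ θ) (h1 : θ ≤ Real.pi / 2) : S θ 0 = θ := by
  rw [S_eq θ 0 h0 h1, intervalIntegral.integral_same, sub_zero]

/-- the two letters -/
lemma word_diff (θ x : ℝ) (hx : 0 < x) :
    II [-(x * Complex.exp (-(θ * Complex.I)))] 1 - II [-(x * Complex.exp (θ * Complex.I))] 1 =
      2 * Complex.I * ((∫ t in (0 : ℝ)..x, g θ t : ℝ) : ℂ) := by
  have hx' : (x : ℂ) ≠ 0 := by exact_mod_cast hx.ne'
  rw [II_single _ (neg_ne_zero.2 (mul_ne_zero hx' (Complex.exp_ne_zero _))),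
    II_single _ (neg_ne_zero.2 (mul_ne_zero hx' (Complex.exp_ne_zero _))),
    ← intervalIntegral.integral_sub (ii_exp _) (ii_exp _)]
  have e1 : ∫ t in (0 : ℝ)..x, g θ t = x * ∫ s in (0 : ℝ)..1, g θ (s * x) := by
    have := intervalIntegral.smul_integral_comp_mul_right (a := 0) (b := 1) (g θ) x
    rw [zero_mul, one_mul] at this
    rw [← this, smul_eq_mul]
  rw [e1, ← intervalIntegral.integral_const_mul, ← intervalIntegral.integral_ofReal,
    ← intervalIntegral.integral_const_mul]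
  refine intervalIntegral.integral_congr fun s hs => ?_
  show (Complex.exp (-(x * Complex.exp (-(θ * Complex.I))) * s) - 1) * 1 / s -
    (Complex.exp (-(x * Complex.exp (θ * Complex.I)) * s) - 1) * 1 / s = 2 * Complex.I * ((x * g θ (s * x) : ℝ) : ℂ)
  by_cases h0 : s = 0
  · subst h0
    simp [g]
  have h0' : (s : ℂ) ≠ 0 := by exact_mod_cast h0
  have e2 : Complex.exp (θ * Complex.I) = Real.cos θ + Real.sin θ * Complex.I := by
    rw [Complex.exp_mul_I, Complex.ofReal_cos, Complex.ofReal_sin]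
  have e3 : Complex.exp (-(θ * Complex.I)) = Real.cos θ - Real.sin θ * Complex.I := by
    rw [← neg_mul, ← Complex.ofReal_neg, Complex.exp_mul_I, ← Complex.ofReal_cos, ← Complex.ofReal_sin, Real.cos_neg,
      Real.sin_neg]
    push_cast
    ring
  have e4 : Complex.exp (-(x * Complex.exp (-(θ * Complex.I))) * s) =
      Real.exp (-(s * x * Real.cos θ)) * Complex.exp ((s * x * Real.sin θ : ℝ) * Complex.I) := by
    rw [e3, Complex.ofReal_exp, ← Complex.exp_add]
    congr 1
    push_cast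
    ring
  have e5 : Complex.exp (-(x * Complex.exp (θ * Complex.I)) * s) =
      Real.exp (-(s * x * Real.cos θ)) * Complex.exp (-((s * x * Real.sin θ : ℝ) * Complex.I)) := by
    rw [e2, Complex.ofReal_exp, ← Complex.exp_add]
    congr 1
    push_cast
    ring
  have e6 : Complex.exp ((s * x * Real.sin θ : ℝ) * Complex.I) - Complex.exp (-((s * x * Real.sin θ : ℝ) * Complex.I)) =
      2 * Complex.I * (Real.sin (s * x * Real.sin θ) : ℝ) := by
    rw [Complex.exp_mul_I, ← neg_mul, ← Complex.ofReal_neg, Complex.exp_mul_I, ← Complex.ofReal_cos, ← Complex.ofReal_sin,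
      ← Complex.ofReal_cos, ← Complex.ofReal_sin, Real.cos_neg, Real.sin_neg]
    push_cast
    ring
  rw [e4, e5]
  have e7 : ((x * g θ (s * x) : ℝ) : ℂ) = Real.exp (-(s * x * Real.cos θ)) * (Real.sin (s * x * Real.sin θ) : ℝ) / s := by
    unfold g
    push_cast
    field_simp
  rw [e7]
  calc _ = Real.exp (-(s * x * Real.cos θ)) * (Complex.exp ((s * x * Real.sin θ : ℝ) * Complex.I) -
      Complex.exp (-((s * x * Real.sin θ : ℝ) * Complex.I))) / s := by ring
    _ = _ := by rw [e6]; ring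

end Pool.Agent.N13.SI
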