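import Mathlib

/-!
# The damped sine integrals
-/

set_option autoImplicit false

open MeasureTheory Set Filter Topology

namespace Pool.Agent.N13.SI

/-- the integrand -/
noncomputable def g (θ t : ℝ) : ℝ := Real.exp (-(t * Real.cos θ)) * Real.sin (t * Real.sin θ) / t

/-- the kernel -/
noncomputable def F (t φ : ℝ) : ℝ := Real.exp (-(t * Real.cos φ)) * Real.cos (t * Real.sin φ - φ)

lemma F_cont : Continuous (fun p : ℝ × ℝ => F p.1 p.2) := by
  unfold F
  fun_prop

lemma deriv_phi (t φ : ℝ) : HasDerivAt (fun φ => Real.exp (-(t * Real.cos φ)) * Real.sin (t * Real.sin φ))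
    (t * F t φ) φ := by
  have h1 : HasDerivAt (fun φ => Real.exp (-(t * Real.cos φ))) (Real.exp (-(t * Real.cos φ)) * (-(t * -Real.sin φ))) φ :=
    ((Real.hasDerivAt_cos φ).const_mul t).neg.exp
  have h2 : HasDerivAt (fun φ => Real.sin (t * Real.sin φ)) (Real.cos (t * Real.sin φ) * (t * Real.cos φ)) φ :=
    ((Real.hasDerivAt_sin φ).const_mul t).sin
  refine (h1.mul h2).congr_deriv ?_
  unfold F
  rw [Real.cos_sub]
  ring

lemma deriv_t (t φ : ℝ) : HasDerivAt (fun t => -(Real.exp (-(t * Real.cos φ)) * Real.cos (t * Real.sin φ)))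
    (F t φ) t := by
  have h1 : HasDerivAt (fun t => Real.exp (-(t * Real.cos φ))) (Real.exp (-(t * Real.cos φ)) * (-(1 * Real.cos φ))) t :=
    ((hasDerivAt_id t).mul_const (Real.cos φ)).neg.exp
  have h2 : HasDerivAt (fun t => Real.cos (t * Real.sin φ)) (-Real.sin (t * Real.sin φ) * (1 * Real.sin φ)) t :=
    ((hasDerivAt_id t).mul_const (Real.sin φ)).cos
  refine (h1.mul h2).neg.congr_deriv ?_
  unfold F
  rw [Real.cos_sub]
  ring

lemma int_phi (t θ : ℝ) (ht : t ≠ 0) : ∫ φ in (0 : ℝ)..θ, F t φ = g θ t := by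
  have h := intervalIntegral.integral_eq_sub_of_hasDerivAt (f' := fun φ => t * F t φ) (a := 0) (b := θ)
    (fun φ _ => deriv_phi t φ) (by
      apply Continuous.intervalIntegrable
      exact continuous_const.mul (F_cont.comp (Continuous.prodMk_right t)))
  rw [intervalIntegral.integral_const_mul] at h
  simp only [Real.sin_zero, mul_zero, sub_zero] at h
  unfold g
  rw [eq_div_iff ht, mul_comm, h]

lemma int_t (R φ : ℝ) : ∫ t in (0 : ℝ)..R, F t φ = 1 - Real.exp (-(R * Real.cos φ)) * Real.cos (R * Real.sin φ) := by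
  rw [intervalIntegral.integral_eq_sub_of_hasDerivAt (fun t _ => deriv_t t φ) (by
      apply Continuous.intervalIntegrable
      exact F_cont.comp (Continuous.prodMk_left φ))]
  simp
  ring

/-- the integral up to `R` -/
lemma int_g (θ R : ℝ) : ∫ t in (0 : ℝ)..R, g θ t =
    θ - ∫ φ in (0 : ℝ)..θ, Real.exp (-(R * Real.cos φ)) * Real.cos (R * Real.sin φ) := by
  have h1 : ∫ t in (0 : ℝ)..R, g θ t = ∫ t in (0 : ℝ)..R, ∫ φ in (0 : ℝ)..θ, F t φ := by
    refine intervalIntegral.integral_congr_ae ?_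
    have : ∀ᵐ t : ℝ, t ≠ 0 := by simp [ae_iff, measure_singleton]
    filter_upwards [this] with t ht _
    exact (int_phi t θ ht).symm
  rw [h1, intervalIntegral_intervalIntegral_swap]
  · simp_rw [int_t]
    rw [intervalIntegral.integral_sub]
    · simp
    · simp
    · apply Continuous.intervalIntegrable
      fun_prop
  · exact F_cont.continuousOn.integrableOn_compact (isCompact_uIcc.prod isCompact_uIcc) |>.mono_set
      (prod_mono uIoc_subset_uIcc uIoc_subset_uIcc)

/-- the limit -/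
lemma tendsto_g (θ : ℝ) (h0 : 0 ≤ θ) (h1 : θ ≤ Real.pi / 2) :
    Tendsto (fun R : ℝ => ∫ t in (0 : ℝ)..R, g θ t) atTop (𝓝 θ) := by
  simp_rw [int_g]
  have h : Tendsto (fun R : ℝ => ∫ φ in (0 : ℝ)..θ, Real.exp (-(R * Real.cos φ)) * Real.cos (R * Real.sin φ)) atTop
      (𝓝 (∫ φ in (0 : ℝ)..θ, (0 : ℝ))) := by
    refine intervalIntegral.tendsto_integral_filter_of_dominated_convergence (fun _ => 1) ?_ ?_ (by simp) ?_
    · refine Eventually.of_forall fun R => ?_
      apply Continuous.aestronglyMeasurable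
      fun_prop
    · filter_upwards [eventually_ge_atTop (0 : ℝ)] with R hR
      refine Eventually.of_forall fun φ hφ => ?_
      rw [uIoc_of_le h0] at hφ
      have hc : 0 ≤ Real.cos φ := Real.cos_nonneg_of_neg_pi_div_two_le_of_le (by linarith [hφ.1, Real.pi_pos]) (hφ.2.trans h1)
      rw [norm_mul, Real.norm_eq_abs, Real.norm_eq_abs, abs_of_pos (Real.exp_pos _)]
      have e1 : Real.exp (-(R * Real.cos φ)) ≤ 1 := Real.exp_le_one_iff.2 (by
        have := mul_nonneg hR hc
        linarith)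
      exact mul_le_one₀ e1 (abs_nonneg _) (Real.abs_cos_le_one _)
    · have : ∀ᵐ φ : ℝ, φ ≠ Real.pi / 2 := by simp [ae_iff, measure_singleton]
      filter_upwards [this] with φ hφ2 hφ
      rw [uIoc_of_le h0] at hφ
      have hc : 0 < Real.cos φ := Real.cos_pos_of_mem_Ioo ⟨by linarith [hφ.1, Real.pi_pos],
        lt_of_le_of_ne (hφ.2.trans h1) hφ2⟩
      have e1 : Tendsto (fun R : ℝ => Real.exp (-(R * Real.cos φ))) atTop (𝓝 0) :=
        Real.tendsto_exp_atBot.comp (tendsto_neg_atTop_atBot.comp (tendsto_id.atTop_mul_const hc))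
      refine squeeze_zero_norm (fun R => ?_) e1
      rw [norm_mul, Real.norm_eq_abs, Real.norm_eq_abs, abs_of_pos (Real.exp_pos _)]
      exact mul_le_of_le_one_right (Real.exp_pos _).le (Real.abs_cos_le_one _)
  rw [intervalIntegral.integral_zero] at h
  have h2 := h.const_sub θ
  rwa [sub_zero] at h2

end Pool.Agent.N13.SI
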