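import Pool.Agent.N13.SI.Int

/-!
# Algebraic independence of the sine integrals, and what it says about `π`
-/

set_option autoImplicit false

open Set

namespace Pool.Agent.N13.SI

open Pool.Agent.N902.EW

/-- the closed third quadrant without the real axis -/
def Quad : Set ℂ := {z | z.re ≤ 0 ∧ z.im < 0}

/-- the generators of the base field -/
def GS : Set ℂ := {z | IsAlgebraic ℚ z} ∪ {z | ∃ b : ℂ, IsAlgebraic ℚ b ∧ z = Complex.exp b} ∪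
    {z | ∃ (a : ℂ) (v : List ℂ), a ∉ Quad ∧ Wd (a :: v) ∧ z = II (a :: v) 1}

/-- the base field -/
noncomputable def FF : IntermediateField ℚ ℂ := IntermediateField.adjoin ℚ GS

/-- the names -/
def Nm : Set (ℝ × ℝ) := {p | 0 < p.1 ∧ p.1 ≤ Real.pi / 2 ∧ IsAlgebraic ℚ (Complex.exp (p.1 * Complex.I)) ∧
  0 < p.2 ∧ IsAlgebraic ℚ p.2}

/-- the letter of a name -/
noncomputable def lt (p : ℝ × ℝ) : ℂ := -(p.2 * Complex.exp (p.1 * Complex.I))

/-- the conjugate letter of a name -/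
noncomputable def lt' (p : ℝ × ℝ) : ℂ := -(p.2 * Complex.exp (-(p.1 * Complex.I)))

lemma alg_lt {p : ℝ × ℝ} (hp : p ∈ Nm) : IsAlgebraic ℚ (lt p) :=
  ((hp.2.2.2.2.algebraMap (A := ℂ)).mul hp.2.2.1).neg

lemma alg_lt' {p : ℝ × ℝ} (hp : p ∈ Nm) : IsAlgebraic ℚ (lt' p) := by
  refine ((hp.2.2.2.2.algebraMap (A := ℂ)).mul ?_).neg
  rw [Complex.exp_neg]
  exact hp.2.2.1.inv

lemma re_lt (p : ℝ × ℝ) : (lt p).re = -(p.2 * Real.cos p.1) := by
  rw [lt, Complex.neg_re, Complex.re_ofReal_mul, Complex.exp_ofReal_mul_I_re]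

lemma im_lt (p : ℝ × ℝ) : (lt p).im = -(p.2 * Real.sin p.1) := by
  rw [lt, Complex.neg_im, Complex.im_ofReal_mul, Complex.exp_ofReal_mul_I_im]

lemma im_lt' (p : ℝ × ℝ) : (lt' p).im = p.2 * Real.sin p.1 := by
  rw [lt', Complex.neg_im, Complex.im_ofReal_mul, ← neg_mul (p.1 : ℂ), ← Complex.ofReal_neg, Complex.exp_ofReal_mul_I_im,
    Real.sin_neg]
  ring

lemma sin_pos_of {p : ℝ × ℝ} (hp : p ∈ Nm) : 0 < Real.sin p.1 :=
  Real.sin_pos_of_pos_of_lt_pi hp.1 (by linarith [hp.2.1, Real.pi_pos])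

lemma lt_mem_Quad {p : ℝ × ℝ} (hp : p ∈ Nm) : lt p ∈ Quad := by
  refine ⟨?_, ?_⟩
  · rw [re_lt]
    have := Real.cos_nonneg_of_neg_pi_div_two_le_of_le (by linarith [hp.1, Real.pi_pos]) hp.2.1
    have := mul_nonneg hp.2.2.2.1.le this
    linarith
  · rw [im_lt]
    have := mul_pos hp.2.2.2.1 (sin_pos_of hp)
    linarith

lemma lt'_ne {p r : ℝ × ℝ} (hp : p ∈ Nm) (hr : r ∈ Nm) : lt' r ≠ lt p := by
  intro h
  have h1 := congrArg Complex.im h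
  rw [im_lt, im_lt'] at h1
  have := mul_pos hp.2.2.2.1 (sin_pos_of hp)
  have := mul_pos hr.2.2.2.1 (sin_pos_of hr)
  linarith

lemma lt_inj {p r : ℝ × ℝ} (hp : p ∈ Nm) (hr : r ∈ Nm) (h : lt r = lt p) : p = r := by
  have h1 : ‖lt r‖ = ‖lt p‖ := by rw [h]
  rw [lt, lt, norm_neg, norm_neg, norm_mul, norm_mul, Complex.norm_exp_ofReal_mul_I, Complex.norm_exp_ofReal_mul_I,
    mul_one, mul_one, Complex.norm_real, Complex.norm_real, Real.norm_of_nonneg hp.2.2.2.1.le,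
    Real.norm_of_nonneg hr.2.2.2.1.le] at h1
  have h2 := congrArg Complex.re h
  rw [re_lt, re_lt, h1] at h2
  have h3 : Real.cos r.1 = Real.cos p.1 := mul_left_cancel₀ hp.2.2.2.1.ne' (neg_inj.1 h2)
  have h4 : r.1 = p.1 := Real.injOn_cos ⟨hr.1.le, by linarith [hr.2.1, Real.pi_pos]⟩
    ⟨hp.1.le, by linarith [hp.2.1, Real.pi_pos]⟩ h3
  exact Prod.ext h4.symm h1.symm

lemma lt_ne_zero {p : ℝ × ℝ} (hp : p ∈ Nm) : lt p ≠ 0 := by
  intro h
  have h1 := congrArg Complex.im h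
  rw [im_lt, Complex.zero_im] at h1
  have := mul_pos hp.2.2.2.1 (sin_pos_of hp)
  linarith

lemma lt'_ne_zero {p : ℝ × ℝ} (hp : p ∈ Nm) : lt' p ≠ 0 := by
  intro h
  have h1 := congrArg Complex.im h
  rw [im_lt', Complex.zero_im] at h1
  have := mul_pos hp.2.2.2.1 (sin_pos_of hp)
  linarith

/-- the integral from `0` to `x` -/
noncomputable def J (p : ℝ × ℝ) : ℝ := ∫ t in (0 : ℝ)..p.2, g p.1 t

lemma adm1 {a : Qb} (ha : a ≠ 0) : Adm [a] := ⟨trivial, fun _ => ha⟩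

/-- the integrals `J` are algebraically independent over the base field -/
theorem ai_J : AlgebraicIndependent FF (fun p : Nm => ((J p.1 : ℝ) : ℂ)) := by
  choose b hb using fun p : Nm => mem_range_io (alg_lt p.2)
  choose b' hb' using fun p : Nm => mem_range_io (alg_lt' p.2)
  obtain ⟨ii, hii⟩ := mem_range_io (z := Complex.I) (by
    refine ⟨Polynomial.X ^ 2 + 1, ?_, ?_⟩
    · exact (Polynomial.monic_X_pow_add_C (1 : ℚ) two_ne_zero).ne_zero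
    · simp)
  have hb0 : ∀ p : Nm, b p ≠ 0 := fun p h => lt_ne_zero p.2 (by rw [← hb p, h, map_zero])
  have hb0' : ∀ p : Nm, b' p ≠ 0 := fun p h => lt'_ne_zero p.2 (by rw [← hb' p, h, map_zero])
  have hii0 : ii ≠ 0 := fun h => Complex.I_ne_zero (by rw [← hii, h, map_zero])
  have hc0 : ((2 * ii)⁻¹ : Qb) ≠ 0 := inv_ne_zero (mul_ne_zero two_ne_zero hii0)
  have h1 := ai_general GS
    (fun p : Nm => ((2 * ii)⁻¹ : Qb) • (mk 0 [b' p] (adm1 (hb0' p)) - mk 0 [b p] (adm1 (hb0 p))))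
    (fun p => DA (b p)) (fun z hz => ?_) (fun _ => -(((2 * ii)⁻¹ : Qb) • mk 0 [] adm_nil)) (fun p => ?_) (fun p => ?_)
    (fun p r hpr => ?_)
  · have e : (fun p : Nm => evA io (((2 * ii)⁻¹ : Qb) • (mk 0 [b' p] (adm1 (hb0' p)) - mk 0 [b p] (adm1 (hb0 p))))) =
        fun p : Nm => ((J p.1 : ℝ) : ℂ) := by
      funext p
      rw [Algebra.smul_def, map_mul, evA_algebraMap, map_sub, evA_mk, evA_mk, evk_ex_zero, one_mul, one_mul,
        ← II_one _ (adm1 (hb0' p)), ← II_one _ (adm1 (hb0 p))]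
      simp only [List.map_cons, List.map_nil]
      rw [hb p, hb' p, map_inv₀, map_mul, hii, lt, lt', word_diff _ _ p.2.2.2.2.1, map_ofNat]
      rw [inv_mul_cancel_left₀ (mul_ne_zero two_ne_zero Complex.I_ne_zero)]
      rfl
    rw [e] at h1
    exact h1
  · rcases hz with (hz | ⟨c, hc, rfl⟩) | ⟨a, v, ha, hw, rfl⟩
    · exact ⟨algebraMap Qb (AA Qb) ⟨z, mem_algebraicClosure_iff'.2 hz.isIntegral⟩, evA_algebraMap _,
        fun _ => Derivation.map_algebraMap _ _⟩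
    · obtain ⟨c', rfl⟩ := mem_range_io hc
      refine ⟨mk c' [] adm_nil, ?_, fun p => DA_nil _ _ _⟩
      rw [evA_mk, U_nil, evk_one, mul_one, evk_ex]
    · obtain ⟨w, hw', hadm⟩ := exists_word hw
      rcases w with _ | ⟨a', v'⟩
      · simp at hw'
      · rw [List.map_cons, List.cons.injEq] at hw'
        refine ⟨mk 0 (a' :: v') hadm, ?_, fun p => DA_ne (fun h => ha ?_) _ _ _⟩
        · rw [evA_mk, evk_ex_zero, one_mul, ← II_one _ hadm, List.map_cons, hw'.1, hw'.2]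
        · rw [← hw'.1, h, hb p]
          exact lt_mem_Quad p.2
  · intro h
    rw [neg_eq_zero] at h
    rcases smul_eq_zero.1 h with h2 | h2
    · exact hc0 h2
    · have h3 := congrArg (evA io) h2
      rw [evA_mk, evk_ex_zero, U_nil, evk_one, map_zero, mul_one] at h3
      exact one_ne_zero h3
  · rw [Derivation.map_smul, map_sub, DA_self, DA_ne, zero_sub, smul_neg]
    intro h
    exact lt'_ne p.2 p.2 (by rw [← hb p, ← hb' p, h])
  · have n1 : b' r ≠ b p := fun h => lt'_ne p.2 r.2 (by rw [← hb p, ← hb' r, h])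
    have n2 : b r ≠ b p := fun h => hpr (Subtype.ext (lt_inj p.2 r.2 (by rw [← hb p, ← hb r, h])))
    rw [Derivation.map_smul, map_sub, DA_ne n1, DA_ne n2, sub_zero, smul_zero]

lemma J_eq {p : ℝ × ℝ} (hp : p ∈ Nm) : ((J p : ℝ) : ℂ) = (p.1 : ℂ) - ((S p.1 p.2 : ℝ) : ℂ) := by
  rw [S_eq p.1 p.2 hp.1.le hp.2.1, J]
  push_cast
  ring

/-- the counting theorem -/
theorem count {r : ℕ} (y : Fin r → ℂ) (Θ : Set ℝ)
    (hΘ : ∀ θ ∈ Θ, IsAlgebraic (IntermediateField.adjoin FF (range y)) (θ : ℂ)) :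
    {n : Fin r ⊕ {p : ℝ × ℝ // p ∈ Nm ∧ p.1 ∈ Θ} | Sum.elim (fun j => IsAlgebraic FF (y j))
      (fun p => IsAlgebraic FF ((S p.1.1 p.1.2 : ℝ) : ℂ)) n}.encard ≤ (r : ℕ∞) := by
  let f : {p : ℝ × ℝ // p ∈ Nm ∧ p.1 ∈ Θ} → Nm := fun p => ⟨p.1, p.2.1⟩
  have hf : Function.Injective f := fun p q h => Subtype.ext (congrArg (fun q : Nm => q.1) h)
  refine count_le (ai_J.comp f hf) y (fun p => ((S p.1.1 p.1.2 : ℝ) : ℂ)) fun p => ?_
  have h1 : (p.1.1 : ℂ) ∈ clf FF (insert ((S p.1.1 p.1.2 : ℝ) : ℂ) (range y)) :=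
    clf_mono (subset_insert _ _) (mem_clf.2 (hΘ _ p.2.2))
  have h2 : ((S p.1.1 p.1.2 : ℝ) : ℂ) ∈ clf FF (insert ((S p.1.1 p.1.2 : ℝ) : ℂ) (range y)) :=
    subset_clf _ (mem_insert _ _)
  show ((J p.1 : ℝ) : ℂ) ∈ _
  rw [J_eq p.2.1]
  exact (clf FF _).sub_mem h1 h2

/-- the transcendence degree -/
theorem trdeg {r : ℕ} (y : Fin r → ℂ) (Θ : Set ℝ)
    (hΘ : ∀ θ ∈ Θ, IsAlgebraic (IntermediateField.adjoin FF (range y)) (θ : ℂ)) (A : Finset (ℝ × ℝ))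
    (hA : ∀ p ∈ A, p ∈ Nm ∧ p.1 ∈ Θ) :
    (A.card : Cardinal) ≤ Algebra.trdeg FF (IntermediateField.adjoin FF
      (range y ∪ (fun p : ℝ × ℝ => ((S p.1 p.2 : ℝ) : ℂ)) '' (A : Set (ℝ × ℝ)))) := by
  let f : A → Nm := fun p => ⟨p.1, (hA _ p.2).1⟩
  have hf : Function.Injective f := fun p q h => Subtype.ext (congrArg (fun q : Nm => q.1) h)
  have h0 := trdeg_ge (ai_J.comp f hf)
    (A := range y ∪ (fun p : ℝ × ℝ => ((S p.1 p.2 : ℝ) : ℂ)) '' (A : Set (ℝ × ℝ))) fun p => by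
      have h1 : (p.1.1 : ℂ) ∈ clf FF (range y ∪ (fun p : ℝ × ℝ => ((S p.1 p.2 : ℝ) : ℂ)) '' (A : Set (ℝ × ℝ))) :=
        clf_mono subset_union_left (mem_clf.2 (hΘ _ (hA _ p.2).2))
      have h2 : ((S p.1.1 p.1.2 : ℝ) : ℂ) ∈ clf FF (range y ∪ (fun p : ℝ × ℝ => ((S p.1 p.2 : ℝ) : ℂ)) '' (A : Set (ℝ × ℝ))) :=
        subset_clf _ (Or.inr ⟨p.1, p.2, rfl⟩)
      show ((J p.1 : ℝ) : ℂ) ∈ _
      rw [J_eq (hA _ p.2).1]
      exact (clf FF _).sub_mem h1 h2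
  rw [Fintype.card_coe] at h0
  exact h0

/-- if `π` is algebraic over the base field then the sine integrals are algebraically independent -/
theorem ai_S (Θ : Set ℝ) (hΘ : ∀ θ ∈ Θ, IsAlgebraic FF (θ : ℂ)) :
    AlgebraicIndependent FF (fun p : {p : ℝ × ℝ // p ∈ Nm ∧ p.1 ∈ Θ} => ((S p.1.1 p.1.2 : ℝ) : ℂ)) := by
  let f : {p : ℝ × ℝ // p ∈ Nm ∧ p.1 ∈ Θ} → Nm := fun p => ⟨p.1, p.2.1⟩
  have hf : Function.Injective f := fun p q h => Subtype.ext (congrArg (fun q : Nm => q.1) h)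
  refine ai_of_span (ai_J.comp f hf) _ fun p => ?_
  have h1 : (p.1.1 : ℂ) ∈ clf FF {((S p.1.1 p.1.2 : ℝ) : ℂ)} := clf_of_alg (hΘ _ p.2.2)
  have h2 : ((S p.1.1 p.1.2 : ℝ) : ℂ) ∈ clf FF {((S p.1.1 p.1.2 : ℝ) : ℂ)} := subset_clf _ rfl
  show ((J p.1 : ℝ) : ℂ) ∈ _
  rw [J_eq p.2.1]
  exact (clf FF _).sub_mem h1 h2

end Pool.Agent.N13.SI
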